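import Pool.Agent.Y33.SM.Stm
import Pool.Agent.TH54.BU.ConeA

/-!
# SM-DET: captured geodesics have detours
-/

set_option autoImplicit false

namespace Pool.Agent.Y240.SM

open Pool.Agent.TH54.BU Pool.Agent.Y33.SM

section attach

variable {Q : Type} [Group Q] (w : GH Q)

/-- a geodesic is attached to a quasi-geodesic at its point nearest to `p` -/
theorem attach (τ : ℕ → Q) (N B : ℕ) (hst : ∀ j, j < N → w.d (τ j) (τ (j + 1)) ≤ 1)
    (hB : ∀ j j', j ≤ j' → j' ≤ N → j' - j ≤ B * w.d (τ j) (τ j')) (p : Q)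
    (hn : ∀ j, j ≤ N → w.d p (τ 0) ≤ w.d p (τ j)) :
    ∃ σ : ℕ → Q, σ 0 = p ∧ (∀ k, k ≤ w.d p (τ 0) → w.d (σ k) (τ 0) ≤ w.d p (τ 0)) ∧
      (∀ k, σ (w.d p (τ 0) + k) = τ k) ∧
      (∀ k, k < w.d p (τ 0) + N → w.d (σ k) (σ (k + 1)) ≤ 1) ∧
      ∀ k k', k ≤ k' → k' ≤ w.d p (τ 0) + N → k' - k ≤ (2 * B + 1) * w.d (σ k) (σ k') := by
  obtain ⟨γ, h0, h1, hg⟩ := w.exists_geod p (τ 0)
  generalize he : w.d p (τ 0) = e at *
  set σ : ℕ → Q := fun k => if k ≤ e then γ k else τ (k - e) with hσ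
  have hσ1 : ∀ k, k ≤ e → σ k = γ k := fun k hk => if_pos hk
  have hσ2 : ∀ k, σ (e + k) = τ k := by
    intro k
    rcases Nat.eq_zero_or_pos k with rfl | hk
    · rw [Nat.add_zero, hσ1 e le_rfl, h1]
    · have : ¬ (e + k ≤ e) := by omega
      simp only [hσ, if_neg this, Nat.add_sub_cancel_left]
  refine ⟨σ, ?_, ?_, hσ2, ?_, ?_⟩
  · rw [hσ1 0 (Nat.zero_le _), h0]
  · intro k hk
    rw [hσ1 k hk, ← h1, hg.sub hk le_rfl]
    omega
  · intro k hk
    rcases Nat.lt_or_ge k e with h | h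
    · rw [hσ1 k h.le, hσ1 (k + 1) h]
      exact hg.1 k h
    · obtain ⟨j, rfl⟩ := Nat.exists_eq_add_of_le h
      rw [hσ2, Nat.add_assoc, hσ2]
      exact hst j (by omega)
  · intro k k' hkk hk'
    rcases Nat.lt_or_ge e k' with h | h
    · obtain ⟨c, rfl⟩ := Nat.exists_eq_add_of_le h.le
      rw [hσ2]
      rcases Nat.lt_or_ge k e with h2 | h2
      · rw [hσ1 k h2.le]
        have e1 := hg.sub h2.le le_rfl
        rw [h1] at e1
        have e2 := hg.sub (Nat.zero_le k) h2.le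
        rw [h0] at e2
        have e3 := hn c (by omega)
        have e4 := w.d_tri p (γ k) (τ c)
        have e5 := hB 0 c (Nat.zero_le _) (by omega)
        have e6 := w.d_tri (τ 0) (γ k) (τ c)
        have e7 := w.d_comm (γ k) (τ 0)
        have e8 : w.d (τ 0) (τ c) ≤ 2 * w.d (γ k) (τ c) := by omega
        have e9 : B * w.d (τ 0) (τ c) ≤ B * (2 * w.d (γ k) (τ c)) := Nat.mul_le_mul_left _ e8
        have e10 : (2 * B + 1) * w.d (γ k) (τ c) =
          B * (2 * w.d (γ k) (τ c)) + w.d (γ k) (τ c) := by ring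
        omega
      · obtain ⟨c', rfl⟩ := Nat.exists_eq_add_of_le h2
        rw [hσ2]
        have e5 := hB c' c (by omega) (by omega)
        have e10 : (2 * B + 1) * w.d (τ c') (τ c) =
          B * w.d (τ c') (τ c) + (B + 1) * w.d (τ c') (τ c) := by ring
        omega
    · rw [hσ1 k (by omega), hσ1 k' h]
      have e1 := hg.sub hkk h
      have e10 : (2 * B + 1) * w.d (γ k) (γ k') =
          w.d (γ k) (γ k') + 2 * B * w.d (γ k) (γ k') := by ring
      omega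

/-- the properties of a detour from `p` to `q` -/
def Pth (Λ r : ℕ) (p q z : Q) (N : ℕ) (σ : ℕ → Q) : Prop :=
  σ 0 = p ∧ σ N = q ∧ (∀ k, k < N → w.d (σ k) (σ (k + 1)) ≤ 1) ∧
    (∀ k k', k ≤ k' → k' ≤ N → k' - k ≤ Λ * w.d (σ k) (σ k')) ∧
    ∀ k, k ≤ N → r ≤ w.d (σ k) z

theorem Pth.rev {Λ r : ℕ} {p q z : Q} {N : ℕ} {σ : ℕ → Q} (h : Pth w Λ r p q z N σ) :
    Pth w Λ r q p z N (fun k => σ (N - k)) := by
  obtain ⟨h1, h2, h3, h4, h5⟩ := h
  refine ⟨by simpa using h2, by simpa using h1, fun k hk => ?_, fun k k' hk hk' => ?_,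
    fun k hk => h5 _ (by omega)⟩
  · have e : N - k = N - (k + 1) + 1 := by omega
    show w.d (σ (N - k)) (σ (N - (k + 1))) ≤ 1
    rw [e, w.d_comm]
    exact h3 _ (by omega)
  · have := h4 (N - k') (N - k) (by omega) (by omega)
    show k' - k ≤ Λ * w.d (σ (N - k)) (σ (N - k'))
    rw [w.d_comm]
    omega

/-- a quasi-geodesic with endpoints near `p` and `q` is replaced by one from `p` to `q` -/
theorem conn (τ : ℕ → Q) (N B E r : ℕ) (hst : ∀ j, j < N → w.d (τ j) (τ (j + 1)) ≤ 1)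
    (hB : ∀ j j', j ≤ j' → j' ≤ N → j' - j ≤ B * w.d (τ j) (τ j')) (p q z : Q)
    (hp : w.d p (τ 0) ≤ E) (hq : w.d q (τ N) ≤ E)
    (h0 : ∀ j, j ≤ N → w.d (τ 0) (τ j) ≤ 2 * E → j ≤ 2 * E)
    (h1 : ∀ j, j ≤ N → w.d (τ N) (τ j) ≤ 2 * E → N - j ≤ 2 * E) (hN : 4 * E ≤ N)
    (hpq : 3 * E ≤ w.d p q) (hz : ∀ j, j ≤ N → r + E ≤ w.d (τ j) z) :
    ∃ (N' : ℕ) (σ : ℕ → Q), N' ≤ N + 2 * E ∧ Pth w (4 * B + 3) r p q z N' σ := by
  classical
  obtain ⟨a, ha, hmin⟩ := Finset.exists_min_image (Finset.range (N + 1)) (fun j => w.d p (τ j))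
    ⟨0, by simp⟩
  obtain ⟨b, hb, hmin'⟩ := Finset.exists_min_image (Finset.range (N + 1)) (fun j => w.d q (τ j))
    ⟨0, by simp⟩
  have haN : a ≤ N := by have := Finset.mem_range.mp ha; omega
  have hbN : b ≤ N := by have := Finset.mem_range.mp hb; omega
  have hpa : w.d p (τ a) ≤ E := (hmin 0 (by simp)).trans hp
  have hqb : w.d q (τ b) ≤ E := (hmin' N (by simp)).trans hq
  have ha2 : a ≤ 2 * E := by
    apply h0 a haN
    have e1 := w.d_tri (τ 0) p (τ a)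
    have e2 := w.d_comm (τ 0) p
    omega
  have hb2 : N - b ≤ 2 * E := by
    apply h1 b hbN
    have e1 := w.d_tri (τ N) q (τ b)
    have e2 := w.d_comm (τ N) q
    omega
  have hab : a ≤ b := by omega
  -- attach `p`
  obtain ⟨σ1, s0, s1, s2, s3, s4⟩ := attach w (fun j => τ (a + j)) (b - a) B
    (fun j hj => hst (a + j) (by omega))
    (fun j j' hj hj' => by
      have := hB (a + j) (a + j') (by omega) (by omega)
      omega) p (fun j hj => hmin (a + j) (by simp only [Finset.mem_range]; omega))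
  simp only [Nat.add_zero] at s1 s2 s3 s4
  generalize he1 : w.d p (τ a) = e1 at *
  set N1 := e1 + (b - a) with hN1
  have hend1 : σ1 N1 = τ b := by
    rw [hN1, s2]
    congr 1
    omega
  -- points of the first path
  have hpt1 : ∀ k, k ≤ N1 → ∃ j, j ≤ N ∧ w.d (σ1 k) (τ j) ≤ E := by
    intro k hk
    rcases Nat.lt_or_ge k e1 with h | h
    · exact ⟨a, haN, (s1 k h.le).trans hpa⟩
    · obtain ⟨j, rfl⟩ := Nat.exists_eq_add_of_le h
      refine ⟨a + j, by omega, ?_⟩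
      rw [s2, w.d_self]
      exact Nat.zero_le _
  obtain ⟨σ2, t0, t1, t2, t3, t4⟩ := attach w (fun k => σ1 (N1 - k)) N1 (2 * B + 1)
    (fun k hk => by
      have e : N1 - k = N1 - (k + 1) + 1 := by omega
      show w.d (σ1 (N1 - k)) (σ1 (N1 - (k + 1))) ≤ 1
      rw [e, w.d_comm]
      exact s3 _ (by omega))
    (fun k k' hk hk' => by
      have := s4 (N1 - k') (N1 - k) (by omega) (by omega)
      show k' - k ≤ (2 * B + 1) * w.d (σ1 (N1 - k)) (σ1 (N1 - k'))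
      rw [w.d_comm]
      omega) q (fun k hk => by
      show w.d q (σ1 (N1 - 0)) ≤ w.d q (σ1 (N1 - k))
      rw [Nat.sub_zero, hend1]
      rcases Nat.lt_or_ge (N1 - k) e1 with h | h
      · have e1 := s1 (N1 - k) h.le
        have e2 := w.d_tri p (σ1 (N1 - k)) q
        have e3 := w.d_comm q (σ1 (N1 - k))
        -- the distance from `p` to a point of the first geodesic
        have e4 := w.d_tri p (τ a) (σ1 (N1 - k))
        have e5 := w.d_comm (σ1 (N1 - k)) (τ a)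
        omega
      · obtain ⟨j, hj⟩ := Nat.exists_eq_add_of_le h
        rw [hj, s2]
        exact hmin' (a + j) (by simp only [Finset.mem_range]; omega))
  simp only [Nat.sub_zero, hend1] at t1 t2 t3 t4
  generalize he2 : w.d q (τ b) = e2 at *
  have hP : Pth w (2 * (2 * B + 1) + 1) r q p z (e2 + N1) σ2 := by
    refine ⟨t0, ?_, t3, t4, ?_⟩
    · rw [t2, Nat.sub_self, s0]
    · intro k hk
      rcases Nat.lt_or_ge k e2 with h | h
      · have a1 := t1 k h.le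
        have a2 := hz b hbN
        have a3 := w.d_tri (τ b) (σ2 k) z
        have a4 := w.d_comm (τ b) (σ2 k)
        omega
      · obtain ⟨j, rfl⟩ := Nat.exists_eq_add_of_le h
        rw [t2]
        obtain ⟨i, hi, hi2⟩ := hpt1 (N1 - j) (by omega)
        have a2 := hz i hi
        have a3 := w.d_tri (τ i) (σ1 (N1 - j)) z
        have a4 := w.d_comm (τ i) (σ1 (N1 - j))
        omega
  have h5 : 4 * B + 3 = 2 * (2 * B + 1) + 1 := by ring
  refine ⟨e2 + N1, fun k => σ2 (e2 + N1 - k), by omega, ?_⟩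
  rw [h5]
  exact Pth.rev w hP

end attach

section circle

variable {G : Type} [Group G] {w : GH G} {κ n : ℕ} {F : GH G} {L : LS F 1100 234003 2}
  {X : Set G} {M : Subgroup G} [M.Normal]

omit [M.Normal] in
theorem pow_mem (hc : Ctx w κ n L X M) {x : G} (hx : x ∈ X) : x ^ n ∈ M := by
  obtain ⟨i, u, h | h⟩ := hc.cov x hx
  · have := hc.fil.rot i u 1
    unfold LS.rt at this
    rw [mul_one, zpow_natCast] at this
    rw [h, conj_pow]
    exact this
  · have := hc.fil.rot i u (-1)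
    unfold LS.rt at this
    rw [mul_neg, mul_one, zpow_neg, zpow_natCast] at this
    rw [h, conj_pow, inv_pow]
    exact this

theorem d_le {w' : GH (G ⧸ M)} (hq : QL w M w') (u v : G) :
    w'.d (u : G ⧸ M) (v : G ⧸ M) ≤ w.d u v := hq.le (u⁻¹ * v)

theorem per_n (hc : Ctx w κ n L X M) {x : G} (hx : x ∈ X) {ζ : ℤ → G} (hζ : Per w x ζ) (j : ℤ) :
    ((ζ (j + n * w.len x) : G) : G ⧸ M) = (ζ j : G) := by
  have h1 : ∀ m : ℕ, ζ (j + m * w.len x) = x ^ m * ζ j := by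
    intro m
    induction m with
    | zero => simp
    | succ m ih =>
      have e : j + ((m + 1 : ℕ) : ℤ) * w.len x = (j + m * w.len x) + w.len x := by
        push_cast
        ring
      rw [e, hζ.per, ih, pow_succ', mul_assoc]
  rw [h1, QuotientGroup.mk_mul, (QuotientGroup.eq_one_iff _).mpr (pow_mem hc hx), one_mul]

/-- the distances on the circle -/
theorem dich (h1 : S_CIRC) (hc : Ctx w κ n L X M) {w' : GH (G ⧸ M)} (hq : QL w M w') {x : G}
    (hx : x ∈ X) {ζ : ℤ → G} (hζ : Per w x ζ) {a b : ℤ} (hab : a ≤ b)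
    (hb : b - a ≤ n * w.len x) :
    ((w'.d (ζ a : G ⧸ M) (ζ b : G ⧸ M) : ℕ) : ℤ) = b - a ∨
      κ ≤ 4 * w'.d (ζ a : G ⧸ M) (ζ b : G ⧸ M) ∨
      ((w'.d (ζ a : G ⧸ M) (ζ b : G ⧸ M) : ℕ) : ℤ) = n * w.len x - (b - a) := by
  obtain ⟨t, ht⟩ := Int.eq_ofNat_of_zero_le (sub_nonneg.mpr hab)
  rcases le_or_gt (2 * t) ((n + 2) * w.len x) with h | h
  · obtain ⟨k1, k2⟩ := h1 G w κ n F L X M hc w' hq x hx ζ hζ a t h
    have e : a + (t : ℤ) = b := by omega
    rw [e] at k1 k2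
    rcases le_total t (w.len x) with h3 | h3
    · left
      rw [k1 h3]
      omega
    · right
      left
      exact k2 h3
  · obtain ⟨t', ht'⟩ := Int.eq_ofNat_of_zero_le (sub_nonneg.mpr hb)
    have hn : (2 : ℤ) * t > (n + 2) * w.len x := by exact_mod_cast h
    have h4 : 2 * t' ≤ (n + 2) * w.len x := by
      have : (2 : ℤ) * t' ≤ (n + 2) * w.len x := by
        have h5 : (0 : ℤ) ≤ w.len x := Int.natCast_nonneg _
        have h6 : (t' : ℤ) = n * w.len x - t := by omega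
        rw [h6]
        nlinarith
      exact_mod_cast this
    obtain ⟨k1, k2⟩ := h1 G w κ n F L X M hc w' hq x hx ζ hζ b t' h4
    have e : b + (t' : ℤ) = a + n * w.len x := by omega
    rw [e, per_n hc hx hζ, w'.d_comm] at k1 k2
    rcases le_total t' (w.len x) with h3 | h3
    · right
      right
      rw [k1 h3]
      omega
    · right
      left
      exact k2 h3

end circle

theorem det (h1 : S_CIRC) : S_DET := by
  intro G _ w _ E r
  refine ⟨100 * (E + r + 1), fun κ hκ n F L X M _ hc w' hq x hx γ l hγ hγ' hcap => ?_⟩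
  obtain ⟨ζ, hζ, g, s, m, t, i0, j0, k0, hord, hi0, hk0, hsm, hmt, hst, hi, hj, hk⟩ := hcap
  have hn := hc.hn
  have hlo := hc.lo x hx
  have hhi := hc.hi x hx
  -- the circle
  have hC1 : (10 : ℤ) ^ 12 * κ ≤ n * w.len x := by
    have a1 : (10 : ℤ) ^ 12 ≤ n := by exact_mod_cast hn
    have a2 : (κ : ℤ) ≤ w.len x := by exact_mod_cast hlo
    have a3 : (0 : ℤ) ≤ κ := Int.natCast_nonneg _
    nlinarith
  have hC2 : (n : ℤ) * w.len x ≤ 5 * n * κ := by
    have a2 : (w.len x : ℤ) ≤ 5 * κ := by exact_mod_cast hhi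
    have a3 : (0 : ℤ) ≤ n := Int.natCast_nonneg _
    nlinarith
  have hd : ∀ a b : ℤ, a ≤ b → b - a ≤ n * w.len x →
    ((w'.d (ζ a : G ⧸ M) (ζ b : G ⧸ M) : ℕ) : ℤ) = b - a ∨
      κ ≤ 4 * w'.d (ζ a : G ⧸ M) (ζ b : G ⧸ M) ∨
      ((w'.d (ζ a : G ⧸ M) (ζ b : G ⧸ M) : ℕ) : ℤ) = n * w.len x - (b - a) :=
    fun a b => dich h1 hc hq hx hζ
  have hpath : ∀ (a : ℤ) (k : ℕ), w'.d (ζ a : G ⧸ M) (ζ (a + k) : G ⧸ M) ≤ k := by
    intro a k
    induction k with
    | zero => simp [w'.d_self]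
    | succ k ih =>
      have e1 := w'.d_tri (ζ a : G ⧸ M) (ζ (a + k) : G ⧸ M) (ζ (a + (k + 1 : ℕ)) : G ⧸ M)
      have e2 := (d_le hq (ζ (a + k)) (ζ (a + k + 1))).trans (hζ.step (a + k))
      have e3 : a + ((k + 1 : ℕ) : ℤ) = a + k + 1 := by push_cast; ring
      rw [e3] at e1 ⊢
      omega
  generalize hC : (n : ℤ) * w.len x = C at *
  obtain ⟨Nc, hNc⟩ := Int.eq_ofNat_of_zero_le (show 0 ≤ C - (t - s) by omega)
  -- the complementary arc
  set τ : ℕ → G ⧸ M := fun j => (g : G ⧸ M) * (ζ (s - j) : G ⧸ M) with hτ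
  have hτd : ∀ j j' : ℕ, w'.d (τ j) (τ j') =
      w'.d (ζ (s - j) : G ⧸ M) (ζ (s - j') : G ⧸ M) := fun j j' => w'.d_mul _ _ _
  have hτ0 : τ 0 = (g : G ⧸ M) * (ζ s : G ⧸ M) := by simp [hτ]
  have hτN : τ Nc = (g : G ⧸ M) * (ζ t : G ⧸ M) := by
    have e1 : s - (Nc : ℤ) + n * w.len x = t := by rw [hC]; omega
    have e2 := per_n hc hx hζ (s - (Nc : ℤ))
    rw [e1] at e2
    simp only [hτ]
    rw [← e2]
  have hstep : ∀ j, j < Nc → w'.d (τ j) (τ (j + 1)) ≤ 1 := by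
    intro j _
    rw [hτd, w'.d_comm]
    have e1 := hpath (s - ((j + 1 : ℕ) : ℤ)) 1
    have e2 : s - ((j + 1 : ℕ) : ℤ) + ((1 : ℕ) : ℤ) = s - j := by push_cast; ring
    rw [e2] at e1
    exact e1
  have hdj : ∀ j j' : ℕ, j ≤ j' → j' ≤ Nc → w'.d (τ j) (τ j') = j' - j ∨
      κ ≤ 4 * w'.d (τ j) (τ j') := by
    intro j j' hjj hj'
    rw [hτd, w'.d_comm]
    rcases hd (s - j') (s - j) (by omega) (by omega) with h | h | h
    · left; omega
    · right; exact h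
    · right; omega
  have hB : ∀ j j', j ≤ j' → j' ≤ Nc → j' - j ≤ 20 * n * w'.d (τ j) (τ j') := by
    intro j j' hjj hj'
    rcases hdj j j' hjj hj' with h | h
    · rw [h]
      exact Nat.le_mul_of_pos_left _ (by omega)
    · have e1 : (Nc : ℤ) ≤ 5 * n * κ := by omega
      have e2 : Nc ≤ 5 * n * κ := by exact_mod_cast e1
      have e3 : 5 * n * κ ≤ 5 * n * (4 * w'.d (τ j) (τ j')) := Nat.mul_le_mul_left _ h
      have e4 : 5 * n * (4 * w'.d (τ j) (τ j')) = 20 * n * w'.d (τ j) (τ j') := by ring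
      omega
  -- the three points
  have hpE : w'.d (γ i0 : G ⧸ M) (τ 0) ≤ E := by
    rw [hτ0, ← QuotientGroup.mk_mul]
    exact (d_le hq _ _).trans hi
  have hqE : w'.d (γ k0 : G ⧸ M) (τ Nc) ≤ E := by
    rw [hτN, ← QuotientGroup.mk_mul]
    exact (d_le hq _ _).trans hk
  have hzE : w'.d (γ j0 : G ⧸ M) ((g : G ⧸ M) * (ζ m : G ⧸ M)) ≤ E := by
    rw [← QuotientGroup.mk_mul]
    exact (d_le hq _ _).trans hj
  have hNc2 : (Nc : ℤ) ≤ 5 * n * κ := by omega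
  have hst4 : κ ≤ 4 * w'.d (τ 0) (τ Nc) := by
    rcases hdj 0 Nc (Nat.zero_le _) le_rfl with h | h
    · rw [h]; omega
    · exact h
  have hstu : (w'.d (τ 0) (τ Nc) : ℤ) ≤ t - s := by
    rw [hτ0, hτN, w'.d_mul]
    obtain ⟨k, hk⟩ := Int.eq_ofNat_of_zero_le (show 0 ≤ t - s by omega)
    have e1 := hpath s k
    have e2 : s + (k : ℤ) = t := by omega
    rw [e2] at e1
    omega
  have htri1 := w'.d_tri (τ 0) (γ i0 : G ⧸ M) (τ Nc)
  have htri2 := w'.d_tri (γ i0 : G ⧸ M) (γ k0 : G ⧸ M) (τ Nc)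
  have htri3 := w'.d_tri (γ i0 : G ⧸ M) (τ 0) (γ k0 : G ⧸ M)
  have htri4 := w'.d_tri (τ 0) (τ Nc) (γ k0 : G ⧸ M)
  have hcm1 := w'.d_comm (τ 0) (γ i0 : G ⧸ M)
  have hcm2 := w'.d_comm (τ Nc) (γ k0 : G ⧸ M)
  obtain ⟨N', σ, hN', hσ⟩ := conn w' τ Nc (20 * n) E r hstep hB (γ i0 : G ⧸ M) (γ k0 : G ⧸ M)
    (γ j0 : G ⧸ M) hpE hqE
    (fun j hj h => by
      rcases hdj 0 j (Nat.zero_le _) hj with h3 | h3 <;> omega)
    (fun j hj h => by
      rw [w'.d_comm] at h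
      rcases hdj j Nc hj le_rfl with h3 | h3 <;> omega)
    (by omega) (by omega)
    (fun j hj => by
      have e1 : κ ≤ 5 * w'.d (τ j) ((g : G ⧸ M) * (ζ m : G ⧸ M)) := by
        rw [w'.d_mul]
        rcases hd (s - j) m (by omega) (by omega) with h | h | h <;> omega
      have e2 := w'.d_tri (τ j) (γ j0 : G ⧸ M) ((g : G ⧸ M) * (ζ m : G ⧸ M))
      omega)
  -- the geodesic in the quotient
  have hg' : w'.Geod (fun j => (γ j : G ⧸ M)) l :=
    ⟨fun i hi => (d_le hq _ _).trans (hγ.1 i hi), hγ'⟩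
  have hnκ : 5 * n * κ + 2 * E ≤ 10 * n * κ := by nlinarith
  have hNN : N' ≤ 10 * n * κ := by
    have : Nc ≤ 5 * n * κ := by exact_mod_cast hNc2
    omega
  have h10 : 10 * κ + 2 * E ≤ 10 * n * κ := by nlinarith
  have hΛ : 4 * (20 * n) + 3 ≤ Lam n := by
    unfold Lam
    nlinarith
  have hmono : ∀ {p q z : G ⧸ M} {N : ℕ} {σ : ℕ → G ⧸ M}, Pth w' (4 * (20 * n) + 3) r p q z N σ →
      (∀ k k', k ≤ k' → k' ≤ N → k' - k ≤ Lam n * w'.d (σ k) (σ k')) := by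
    intro p q z N σ h k k' hk hk'
    exact (h.2.2.2.1 k k' hk hk').trans (Nat.mul_le_mul_right _ hΛ)
  rcases hord with ⟨ho1, ho2⟩ | ⟨ho1, ho2⟩
  · have hlen : w'.d (γ i0 : G ⧸ M) (γ k0 : G ⧸ M) = k0 - i0 := hg'.sub (ho1.trans ho2) hk0
    refine ⟨i0, j0, k0, σ, N', ho1, ho2, hk0, by omega, hNN, hσ.1, hσ.2.1, hσ.2.2.1,
      hmono hσ, hσ.2.2.2.2⟩
  · have hlen : w'.d (γ k0 : G ⧸ M) (γ i0 : G ⧸ M) = i0 - k0 := hg'.sub (ho1.trans ho2) hi0
    have hcm3 := w'.d_comm (γ i0 : G ⧸ M) (γ k0 : G ⧸ M)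
    have hσ' := Pth.rev w' hσ
    refine ⟨k0, j0, i0, _, N', ho1, ho2, hi0, by omega, hNN, hσ'.1, hσ'.2.1, hσ'.2.2.1,
      hmono hσ', hσ'.2.2.2.2⟩

end Pool.Agent.Y240.SM
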